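import Pool.Agent.Run7.h520.LW.Par

/-!
# Piece NUM: existence of the parameters (project of helper520, `MP_75b3be_lc`)
-/

namespace Pool.Agent.Run7.h228.LWNum

open Run7.h520.LW

/-- the pairs `(e j, γ j)` -/
def eg : ℕ → ℕ × ℕ
  | 0 => (0, 6)
  | j + 1 => (4 * (eg j).1 + 4 * (eg j).2 + 40, (eg j).2 + 2 ^ (4 * (eg j).1 + 4 * (eg j).2 + 40 + 5))

def e (j : ℕ) : ℕ := (eg j).1
def γ (j : ℕ) : ℕ := (eg j).2

lemma e_zero : e 0 = 0 := rfl
lemma γ_zero : γ 0 = 6 := rfl
lemma e_succ (j : ℕ) : e (j + 1) = 4 * e j + 4 * γ j + 40 := rfl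
lemma γ_succ (j : ℕ) : γ (j + 1) = γ j + 2 ^ (e (j + 1) + 5) := rfl

noncomputable def q (j : ℕ) : ℝ := ((2 : ℝ) ^ e j)⁻¹

lemma qpos (j : ℕ) : 0 < q j := by unfold q; positivity

lemma e_le (j : ℕ) : e j + 1 ≤ e (j + 1) := by rw [e_succ]; omega

lemma q_half (j : ℕ) : q (j + 1) ≤ q j / 2 := by
  unfold q
  rw [div_eq_mul_inv, ← mul_inv, ← pow_succ]
  exact inv_anti₀ (by positivity) (pow_le_pow_right₀ (by norm_num) (e_le j))

lemma q_anti : Antitone q := antitone_nat_of_succ_le fun j => by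
  have := q_half j
  have := qpos j
  linarith

lemma γ_lt (j : ℕ) : γ j < γ (j + 1) := by
  rw [γ_succ]
  have : 0 < 2 ^ (e (j + 1) + 5) := by positivity
  omega

lemma γ_strictMono : StrictMono γ := strictMono_nat_of_lt_succ γ_lt

lemma ex_idx (n : ℕ) : ∃ i, n < γ i := ⟨n + 1, by
  have := γ_strictMono.id_le (n + 1)
  simp only [id] at this
  omega⟩

def idx (n : ℕ) : ℕ := Nat.find (ex_idx n)

lemma le_idx {n j : ℕ} (h : γ j ≤ n) : j + 1 ≤ idx n := by
  by_contra hc
  have h1 : n < γ (idx n) := Nat.find_spec (ex_idx n)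
  have h2 : γ (idx n) ≤ γ j := γ_strictMono.monotone (by omega)
  omega

lemma idx_le {n j : ℕ} (h : n < γ j) : idx n ≤ j := Nat.find_min' (ex_idx n) h

noncomputable def θ (n : ℕ) : ℝ := q (idx n) / 16

lemma θ_nonneg (n : ℕ) : 0 ≤ θ n := by
  have := qpos (idx n)
  unfold θ
  linarith

lemma q_zero : q 0 = 1 := by simp [q, e_zero]

lemma θ_le (n : ℕ) : θ n ≤ 1 / 16 := by
  have h := q_anti (Nat.zero_le (idx n))
  rw [q_zero] at h
  unfold θ
  linarith

lemma θ_le' {n j : ℕ} (h : γ j ≤ n) : θ n ≤ q (j + 1) / 16 := by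
  have h := q_anti (le_idx h)
  unfold θ
  linarith

noncomputable def F (m : ℕ) : ℝ := ∑ n ∈ Finset.range m, θ n

lemma F_mono : Monotone F := by
  intro a b h
  exact Finset.sum_le_sum_of_subset_of_nonneg (Finset.range_mono h) fun i _ _ => θ_nonneg i

lemma F_le (m : ℕ) : F m ≤ m / 16 := by
  unfold F
  calc ∑ n ∈ Finset.range m, θ n ≤ ∑ _n ∈ Finset.range m, (1 / 16 : ℝ) := Finset.sum_le_sum fun i _ => θ_le i
    _ = m / 16 := by rw [Finset.sum_const, Finset.card_range, nsmul_eq_mul]; ring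

lemma F_up (j m : ℕ) : F m ≤ γ j / 16 + m * q (j + 1) / 16 := by
  have hq := qpos (j + 1)
  rcases Nat.lt_or_ge m (γ j) with h | h
  · have h1 := F_le m
    have h2 : (m : ℝ) ≤ γ j := by exact_mod_cast h.le
    have h3 : 0 ≤ (m : ℝ) * q (j + 1) := by positivity
    linarith
  · have h1 := F_le (γ j)
    have h2 : F m = F (γ j) + ∑ n ∈ Finset.Ico (γ j) m, θ n := by
      unfold F
      rw [Finset.sum_range_add_sum_Ico _ h]
    have h3 : ∑ n ∈ Finset.Ico (γ j) m, θ n ≤ ∑ _n ∈ Finset.Ico (γ j) m, q (j + 1) / 16 :=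
      Finset.sum_le_sum fun i hi => θ_le' (Finset.mem_Ico.1 hi).1
    rw [Finset.sum_const, Nat.card_Ico, nsmul_eq_mul] at h3
    have h4 : ((m - γ j : ℕ) : ℝ) ≤ m := by exact_mod_cast Nat.sub_le _ _
    have h5 : ((m - γ j : ℕ) : ℝ) * (q (j + 1) / 16) ≤ m * (q (j + 1) / 16) :=
      mul_le_mul_of_nonneg_right h4 (by positivity)
    rw [h2]
    linarith

lemma F_two (i : ℕ) : (2 * i : ℝ) ≤ F (γ i) := by
  induction i with
  | zero =>
    have := F_mono (Nat.zero_le (γ 0))
    simp only [F, Finset.range_zero, Finset.sum_empty] at this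
    simpa [F] using this
  | succ i ih =>
    have h2 : F (γ (i + 1)) = F (γ i) + ∑ n ∈ Finset.Ico (γ i) (γ (i + 1)), θ n := by
      unfold F
      rw [Finset.sum_range_add_sum_Ico _ (γ_lt i).le]
    have h3 : ∑ _n ∈ Finset.Ico (γ i) (γ (i + 1)), q (i + 1) / 16 ≤ ∑ n ∈ Finset.Ico (γ i) (γ (i + 1)), θ n := by
      refine Finset.sum_le_sum fun n hn => ?_
      have h := q_anti (idx_le (Finset.mem_Ico.1 hn).2)
      unfold θ
      linarith
    rw [Finset.sum_const, Nat.card_Ico, nsmul_eq_mul, γ_succ, Nat.add_sub_cancel_left] at h3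
    have h4 : ((2 ^ (e (i + 1) + 5) : ℕ) : ℝ) * (q (i + 1) / 16) = 2 := by
      unfold q
      push_cast
      rw [pow_add]
      have : (2 : ℝ) ^ e (i + 1) ≠ 0 := by positivity
      field_simp
      norm_num
    rw [h4] at h3
    rw [← γ_succ] at h3
    push_cast
    linarith

noncomputable def f (x : ℕ) : ℝ := F (Nat.log 2 x)

lemma q_geo (j i : ℕ) : q (j + i) ≤ q j * (1 / 2) ^ i := by
  induction i with
  | zero => simp
  | succ i ih =>
    have h := q_half (j + i)
    rw [← add_assoc, pow_succ]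
    linarith

lemma q_summable (j : ℕ) : Summable fun i => q (j + i) := by
  refine Summable.of_nonneg_of_le (fun i => (qpos _).le) (fun i => q_geo j i) ?_
  exact (summable_geometric_two).mul_left _

noncomputable def w (j : ℕ) : ℝ := ∑' i, q (j + 1 + i)

lemma w_succ (j : ℕ) : w j = q (j + 1) + w (j + 1) := by
  unfold w
  rw [(q_summable (j + 1)).tsum_eq_zero_add]
  congr 1
  refine tsum_congr fun i => ?_
  congr 1
  omega

lemma w_nonneg (j : ℕ) : 0 ≤ w j := tsum_nonneg fun _ => (qpos _).le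

lemma w_le (j : ℕ) : w j ≤ 2 * q (j + 1) := by
  unfold w
  calc ∑' i, q (j + 1 + i) ≤ ∑' i, q (j + 1) * (1 / 2) ^ i :=
        (q_summable (j + 1)).tsum_le_tsum (fun i => q_geo (j + 1) i) ((summable_geometric_two).mul_left _)
    _ = 2 * q (j + 1) := by rw [tsum_mul_left, tsum_geometric_two]; ring

theorem exists_par : Nonempty Par := by
  refine ⟨{ g := fun j => 2 ^ γ j, N := fun j => 2 ^ (γ j + e j + 2), K := fun j => 2 ^ (e j + 2),
            q := q, w := w, f := f, q0 := q_zero, qpos := qpos, qdiv := ?_, qlt := ?_, g0 := ?_,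
            gmono := ?_, hN := ?_, hK := ?_, hw := w_succ, wpos := ?_, wle := w_le, f0 := ?_,
            fmono := ?_, funb := ?_, fstep := ?_, fsmall := ?_, fup := ?_ }⟩
  · intro j
    refine ⟨2 ^ (e (j + 1) - e j), ?_⟩
    have h := e_le j
    unfold q
    push_cast
    rw [pow_sub₀ _ (by norm_num) (by omega)]
    have : (2 : ℝ) ^ e (j + 1) ≠ 0 := by positivity
    field_simp
  · intro j
    apply le_of_eq
    unfold q
    rw [e_succ]
    push_cast
    have : (2 : ℝ) ^ e j ≠ 0 := by positivity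
    have : (2 : ℝ) ^ γ j ≠ 0 := by positivity
    rw [pow_add, pow_add, mul_comm 4 (e j), mul_comm 4 (γ j), pow_mul, pow_mul, inv_pow]
    field_simp
  · show 64 ≤ 2 ^ γ 0
    rw [γ_zero]; norm_num
  · intro j
    show 8 * 2 ^ γ j ≤ 2 ^ γ (j + 1)
    have h : γ j + 3 ≤ γ (j + 1) := by
      rw [γ_succ]
      have : 2 ^ 5 ≤ 2 ^ (e (j + 1) + 5) := Nat.pow_le_pow_right (by norm_num) (by omega)
      omega
    calc 8 * 2 ^ γ j = 2 ^ (γ j + 3) := by rw [pow_add]; ring
      _ ≤ _ := Nat.pow_le_pow_right (by norm_num) h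
  · intro j
    unfold q
    push_cast
    rw [pow_add, pow_add]
    have : (2 : ℝ) ^ e j ≠ 0 := by positivity
    field_simp
    norm_num
  · intro j
    unfold q
    push_cast
    rw [pow_add]
    have : (2 : ℝ) ^ e j ≠ 0 := by positivity
    field_simp
    norm_num
  · intro j
    have h1 := w_succ j
    have h2 := w_nonneg (j + 1)
    have h3 := qpos (j + 1)
    linarith
  · simp [f, F]
  · intro a b h
    exact F_mono (Nat.log_mono_right h)
  · intro c
    obtain ⟨i, hi⟩ := exists_nat_ge c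
    refine ⟨2 ^ γ i, ?_⟩
    show c ≤ F (Nat.log 2 (2 ^ γ i))
    rw [Nat.log_pow (by norm_num)]
    have h := F_two i
    have : (0 : ℝ) ≤ i := Nat.cast_nonneg i
    linarith
  · intro j x y z hyz hzx hj
    rcases Nat.eq_zero_or_pos x with h0 | h0
    · subst h0
      have : y = 0 := by omega
      subst this
      have := qpos j
      simp only [add_zero]
      linarith
    · have h1 : Nat.log 2 (x + y) ≤ Nat.log 2 x + 1 := by
        have h2 : x + y ≤ x * 2 := by omega
        calc Nat.log 2 (x + y) ≤ Nat.log 2 (x * 2) := Nat.log_mono_right h2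
          _ = Nat.log 2 x + 1 := Nat.log_mul_base (by norm_num) (by omega)
      have h2 : F (Nat.log 2 x + 1) = F (Nat.log 2 x) + θ (Nat.log 2 x) := by
        unfold F; rw [Finset.sum_range_succ]
      have h3 : θ (Nat.log 2 x) ≤ q j / 16 := by
        rcases hj with rfl | hj
        · rw [q_zero]; exact θ_le _
        · rcases Nat.eq_zero_or_pos j with h | h
          · subst h
            rw [q_zero]; exact θ_le _
          · obtain ⟨i, rfl⟩ : ∃ i, j = i + 1 := ⟨j - 1, by omega⟩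
            apply θ_le'
            simp only [Nat.add_sub_cancel] at hj
            exact (Nat.le_log_iff_pow_le (by norm_num) (by omega)).2 (hj.trans hzx)
      have h4 := F_mono h1
      unfold f
      linarith
  · intro x
    have h1 := F_le (Nat.log 2 x)
    have h2 : ((Nat.log 2 x : ℕ) : ℝ) ≤ x := by exact_mod_cast Nat.log_le_self 2 x
    have h3 : (0 : ℝ) ≤ x := Nat.cast_nonneg x
    unfold f
    linarith
  · intro j x
    have h1 := F_up j (Nat.log 2 x)
    have h2 : ((Nat.log 2 x : ℕ) : ℝ) ≤ x := by exact_mod_cast Nat.log_le_self 2 x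
    have h3 : ((γ j : ℕ) : ℝ) ≤ ((2 ^ γ j : ℕ) : ℝ) := by exact_mod_cast (Nat.lt_two_pow_self).le
    have h4 := qpos (j + 1)
    have h5 : (Nat.log 2 x : ℝ) * q (j + 1) ≤ x * q (j + 1) := mul_le_mul_of_nonneg_right h2 h4.le
    have h6 : (0 : ℝ) ≤ x := Nat.cast_nonneg x
    have h7 : (0 : ℝ) ≤ x * q (j + 1) := by positivity
    have h8 : (0 : ℝ) ≤ ((γ j : ℕ) : ℝ) := Nat.cast_nonneg _
    show F (Nat.log 2 x) ≤ ((2 ^ γ j : ℕ) : ℝ) / 8 + q (j + 1) * x / 8
    linarith

end Pool.Agent.Run7.h228.LWNum
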