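import Pool.Agent.Run7.h968.TN.Defs

set_option autoImplicit false

/-!
Pieces `count` and `rf` of the project TN of helper968.
-/

namespace Run7.h228.TN

open Pool.Agent.Run7.h968.TN Finset Classical

theorem t_rf : P_rf := by
  intro K _ hRF B
  induction B using Finset.induction_on with
  | empty => exact ⟨⊤, inferInstance, by simp, by simp⟩
  | insert b B _ ih =>
    obtain ⟨N, h1, h2, h3⟩ := ih
    by_cases hb : b = 1
    · refine ⟨N, h1, h2, ?_⟩
      intro c hc hcN
      rw [mem_insert] at hc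
      rcases hc with rfl | hc
      · exact hb
      · exact h3 c hc hcN
    · obtain ⟨M, h4, h5, h6⟩ := hRF b hb
      refine ⟨N ⊓ M, inferInstance, Subgroup.index_inf_ne_zero h2 h5, ?_⟩
      intro c hc hcN
      rw [mem_insert] at hc
      rw [Subgroup.mem_inf] at hcN
      rcases hc with rfl | hc
      · exact absurd hcN.2 h6
      · exact h3 c hc hcN.1

/-- The sum over the translates. -/
theorem sum_card {K : Type} [Group K] (N : Subgroup K) [N.Normal] [Fintype (K ⧸ N)]
    (S : Finset (K ⧸ N)) (A : Finset K) :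
    ∑ y : K ⧸ N, Nat.card {a : K // a ∈ A ∧ (QuotientGroup.mk (a * y.out) : K ⧸ N) ∈ S} =
      A.card * S.card := by
  have h1 : ∀ y : K ⧸ N,
      Nat.card {a : K // a ∈ A ∧ (QuotientGroup.mk (a * y.out) : K ⧸ N) ∈ S} =
        ∑ a ∈ A, if (QuotientGroup.mk a : K ⧸ N) * y ∈ S then 1 else 0 := by
    intro y
    rw [← Finset.card_filter]
    have : Nat.card {a : K // a ∈ A ∧ (QuotientGroup.mk (a * y.out) : K ⧸ N) ∈ S} =
        Nat.card {a : K // a ∈ A.filter fun a => (QuotientGroup.mk a : K ⧸ N) * y ∈ S} := by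
      refine Nat.card_congr (Equiv.subtypeEquivRight ?_)
      intro a
      rw [mem_filter, QuotientGroup.mk_mul, QuotientGroup.out_eq']
    rw [this, Nat.card_eq_fintype_card, Fintype.card_coe]
  simp_rw [h1]
  rw [Finset.sum_comm]
  have h2 : ∀ a ∈ A, ∑ y : K ⧸ N, (if (QuotientGroup.mk a : K ⧸ N) * y ∈ S then 1 else 0) =
      S.card := by
    intro a _
    rw [← Finset.card_filter]
    refine Finset.card_bij (fun y _ => (QuotientGroup.mk a : K ⧸ N) * y) ?_ ?_ ?_
    · intro y hy
      simpa using hy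
    · intro y _ z _ hyz
      exact mul_left_cancel hyz
    · intro z hz
      exact ⟨(QuotientGroup.mk a : K ⧸ N)⁻¹ * z, by simpa using hz, by simp⟩
  rw [Finset.sum_congr rfl h2, Finset.sum_const, smul_eq_mul]

theorem t_count : P_count := by
  intro K _ N _ _ _ I _ F i A₁ A₂ V hV hx
  set S : Fin 4 → Finset (K ⧸ N) := fun l =>
    (Finset.univ : Finset (K ⧸ N)).filter (fun y => (y, i l) ∈ F) with hS
  have hmem : ∀ l y, y ∈ S l ↔ (y, i l) ∈ F := by
    intro l y
    simp [hS]
  have hsum := Finset.sum_le_sum (s := (Finset.univ : Finset (K ⧸ N)))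
    fun y _ => hx (Quotient.out y)
  simp_rw [← hmem] at hsum
  rw [Finset.sum_add_distrib, Finset.sum_add_distrib, Finset.sum_add_distrib, sum_card N, sum_card N,
    sum_card N, sum_card N, Finset.sum_const, Finset.card_univ, smul_eq_mul] at hsum
  have hc : ∀ l, (S l).card ≤ Fintype.card (K ⧸ N) := fun l => Finset.card_le_univ _
  have h0 := hc 0
  have h1 := hc 1
  have h2 := hc 2
  have h3 := hc 3
  have hpos : 0 < Fintype.card (K ⧸ N) := Fintype.card_pos
  show (S 0).card + (S 1).card + ((S 2).card + (S 3).card) ≤ _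
  by_contra hcon
  push Not at hcon
  have ha : Fintype.card (K ⧸ N) ≤ (S 0).card + (S 1).card := by omega
  have hb : Fintype.card (K ⧸ N) ≤ (S 2).card + (S 3).card := by omega
  have h4 : A₁.card * Fintype.card (K ⧸ N) ≤ A₁.card * ((S 0).card + (S 1).card) :=
    Nat.mul_le_mul_left _ ha
  have h5 : A₂.card * Fintype.card (K ⧸ N) ≤ A₂.card * ((S 2).card + (S 3).card) :=
    Nat.mul_le_mul_left _ hb
  have h6 : (V.card + 1) * Fintype.card (K ⧸ N) ≤ (A₁.card + A₂.card) * Fintype.card (K ⧸ N) :=
    Nat.mul_le_mul_right _ hV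
  nlinarith

end Run7.h228.TN
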